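import Pool.Agent.W809.JS.Concl
import Pool.Agent.W880.JS.Bl
import Pool.Agent.W880.JS.L2
import Pool.Agent.W880.JS.Seg
import Pool.Agent.W356.JS.Fub
import Pool.Agent.W356.JS.Cau
import Pool.Agent.W356.JS.Hull
import Pool.Agent.W585.JS.Iter
import Pool.Agent.W924.JS.ZN
import Pool.Agent.W872.JS.Low
import Pool.Agent.W741.JS.BR
import Pool.Agent.W135.JS.Null2
import Pool.Agent.W115.JS.NullN
import Pool.Agent.W331.JS.Small
import Pool.Agent.W579.JS.Loc
import Pool.Agent.W591.JS.Box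
import Pool.Agent.W748.JS.Avg

set_option autoImplicit false

open MeasureTheory Filter Topology Set Metric Real

namespace Pool.Agent.Results.MP_5c297c_an.StrictlyConvexNotJessen

/-- The imaginary part of a point of `ℂⁿ`, coordinate by coordinate. -/
def imPart {n : ℕ} (z : Fin n → ℂ) : Fin n → ℝ := fun j => (z j).im

/-- The tube `T_E`, the set of `z` in `ℂⁿ` with `Im z` in `E`. -/
def tube {n : ℕ} (E : Set (Fin n → ℝ)) : Set (Fin n → ℂ) := {z | imPart z ∈ E}

/-- The supremum of `|g z|` over `z` in the tube `T_E`, an extended nonnegative real. -/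
noncomputable def tubeNorm {n : ℕ} (g : (Fin n → ℂ) → ℂ) (E : Set (Fin n → ℝ)) : ENNReal :=
  ⨆ z ∈ tube E, ‖g z‖ₑ

/-- The open cube `Q_l(a)`. -/
def cube {n : ℕ} (l : ℝ) (a : Fin n → ℝ) : Set (Fin n → ℝ) := {x | ∀ j, |x j - a j| < l}

/-- `f` is holomorphic and almost periodic in the tube `T_G`. -/
def IsHolAP {n : ℕ} (G : Set (Fin n → ℝ)) (f : (Fin n → ℂ) → ℂ) : Prop :=
  DifferentiableOn ℂ f (tube G) ∧
    ∀ ε : ℝ, 0 < ε → ∀ E : Set (Fin n → ℝ), IsCompact (closure E) → closure E ⊆ G →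
      ∃ l : ℝ, 0 < l ∧ ∀ a : Fin n → ℝ, ∃ h ∈ cube l a,
        tubeNorm (fun z => f (fun j => z j + (h j : ℂ)) - f z) E < ENNReal.ofReal ε

/-- `φ` is, on `G`, the Jessen function of some holomorphic almost periodic `f` in `T_G`, `f` not
identically zero: for every `y` in `G` the mean of `log |f (x + i y)|` over the cube `Q_t(0)`
tends to `φ y` as `t` tends to infinity. -/
def IsJessen {n : ℕ} (G : Set (Fin n → ℝ)) (φ : (Fin n → ℝ) → ℝ) : Prop :=
  ∃ f : (Fin n → ℂ) → ℂ, IsHolAP G f ∧ (∃ z ∈ tube G, f z ≠ 0) ∧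
    ∀ y ∈ G, Tendsto (fun t : ℝ => 1 / (2 * t) ^ n *
      ∫ x in cube t 0, Real.log ‖f (fun j => (x j : ℂ) + (y j : ℂ) * Complex.I)‖) atTop (𝓝 (φ y))

open Pool.Agent.W809.JS in
/-- Negative answer to Q1 in every dimension `n ≥ 2` and on every convex domain `G`: there is a
strictly convex function on `G`, affine on no nondegenerate segment, that is not a Jessen
function. -/
theorem result : ∀ n : ℕ, 2 ≤ n → ∀ G : Set (Fin n → ℝ), IsOpen G → Convex ℝ G → G.Nonempty →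
    ∃ φ : (Fin n → ℝ) → ℝ, StrictConvexOn ℝ G φ ∧
      (∀ a b : Fin n → ℝ, a ≠ b → segment ℝ a b ⊆ G →
        ¬ ∃ (A : (Fin n → ℝ) →ₗ[ℝ] ℝ) (c : ℝ), ∀ y ∈ segment ℝ a b, φ y = A y + c) ∧
      ¬ IsJessen G φ := by
  have hIND : S_IND := Pool.Agent.W880.JS.ind
  have hL2 : S_L2 := Pool.Agent.W880.JS.l2 hIND
  have hSEG : S_SEG := Pool.Agent.W880.JS.seg hIND
  have hFUB : S_FUB := Pool.Agent.W356.JS.fub
  have hITER : S_ITER := Pool.Agent.W585.JS.iter hL2
  have hZN : S_ZN := Pool.Agent.W924.JS.zn hITER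
  have hCAU : S_CAU := Pool.Agent.W356.JS.cau
  have hHULL : S_HULL := Pool.Agent.W356.JS.hull hCAU
  have hNV : S_NV := Pool.Agent.W872.JS.nv
  have hLOW : S_LOW := Pool.Agent.W872.JS.low hHULL hNV
  have hNULL2 : S_NULL2 := Pool.Agent.W135.JS.null2 Pool.Agent.W741.JS.br
  have hNULLN : S_NULLN := Pool.Agent.W115.JS.NullN.nulln hZN hNULL2 hFUB
  have hSMALL : S_SMALL := Pool.Agent.W331.JS.Small.small hHULL hNV hNULLN
  have hLOC : S_LOC := Pool.Agent.W579.JS.loc hITER hSEG hFUB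
  have hAVG : S_AVG := Pool.Agent.W748.JS.avg Pool.Agent.W591.JS.box
  exact concl hITER hLOW hSMALL hLOC hAVG

end Pool.Agent.Results.MP_5c297c_an.StrictlyConvexNotJessen
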